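import Pool.Agent.W424.FR.All

/-!
# Boundaries of the components of the complement of the half-plane exploration path

Critical bond percolation on `ℤ × ℕ`, the edges `[x, x + 1]` of the real axis open for `x < 0` and
closed for `x ≥ 0`. The exploration path starts next to the origin and keeps the open cluster of
the negative half-axis on its left; `curve n ω` is the path `n ^ (-4/7) γ(n t)`, `0 ≤ t ≤ 1`, and
`lawH n` is its law. Weak limits exist along a subsequence of every sequence `n → ∞` (first part of
`UniformDimension.result`). For every weak limit, almost surely, the points of the open half-plane
which, at some time `t` at which the limit curve `f` is somewhere else, are on the boundary of a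
connected component of the complement of `f [0, t]` (all times and all components together, in
particular the outer boundaries of all the hulls) form a set of Hausdorff dimension at most `4 / 3`.

Proof: near such a point the curve comes and goes, and some path from the point to a large distance
avoids the curve; on the lattice this gives three arms (open, closed, closed) or (closed, open,
open) in an annulus, whose probability is at most `C (d / k) ^ (2 / 3)` for all radii `d < k`
(`Pool.Agent.W424.KI.u3`).

Definitions: `Conf`, `perc`, `opn`, `step`, `path`, `place`, `gam`, `curve` in
`Pool.Agent.H984R4.HN.HPDefs`, `lawH` in `Pool.Agent.H984R4.HN.FinalH`.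

Parts: helper424 (`W424.FR`: definitions, `T_F`, `T_LAT`, `T_AD`, `T_RP`, `T_HP`; independent
versions by helpers 499, 428, 199, 19), helper313 and helper388 (deterministic parts; also helpers
549, 668), helper45 (open events, boundary points force events), helper743 (the limit; also
helper191), helper435 and helper991 (conclusions); tools from the double point projects of helpers
92, 347 and 462.
-/

set_option autoImplicit false

namespace Pool.Agent.Results.MP_6c8efb_pr.ComplementBoundaries

open MeasureTheory Filter Topology

/-- The points which, at some time `t` at which the curve is somewhere else, are on the boundary of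
a connected component of the complement of the curve up to the time `t`. -/
def exposed (f : C(unitInterval, ℂ)) : Set ℂ :=
  {z | ∃ t : unitInterval, f t ≠ z ∧ ∃ w : ℂ, w ∉ f '' Set.Iic t ∧
    z ∈ frontier (connectedComponentIn (f '' Set.Iic t)ᶜ w)}

theorem result (φ : ℕ → ℕ) (hφ : Tendsto φ atTop atTop)
    (μ : ProbabilityMeasure C(unitInterval, ℂ))
    (hμ : Tendsto (fun i => H984H.lawH (φ i)) atTop (𝓝 μ)) :
    ∀ᵐ f : C(unitInterval, ℂ) ∂(μ : Measure C(unitInterval, ℂ)),
      dimH {z : ℂ | 0 < z.im ∧ z ∈ exposed f} ≤ 4 / 3 :=
  Pool.Agent.W424.FR.half φ hφ μ hμ

end Pool.Agent.Results.MP_6c8efb_pr.ComplementBoundaries
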