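import Pool.Agent.Results.MP_6c8efb_pr.UniformDimension
import Pool.Agent.Results.MP_6c8efb_pr.Displacement
import Pool.Agent.W92.DPH.AsmH
import Pool.Agent.W92.DP.Dich
import Pool.Agent.W571.DPad
import Pool.Agent.W571.DParms
import Pool.Agent.W801.DPdet
import Pool.Agent.W52.DPInd
import Pool.Agent.W52.DPOne
import Pool.Agent.W52.DPTwo
import Pool.Agent.W347.DPGood
import Pool.Agent.W598.DPplow
import Pool.Agent.W822.PV.A4s
import Pool.Agent.W347.DPHUp
import Pool.Agent.W101.DPH.Ret
import Pool.Agent.W174.DP.LimLH

/-!
# Double points of the scaling limits of the half-plane exploration path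

Critical bond percolation on `ℤ × ℕ`, the edges `[x, x + 1]` of the real axis open for `x < 0` and
closed for `x ≥ 0`. The exploration path starts next to the origin and keeps the open cluster of
the negative half-axis on its left; `curve n ω` is the path `n ^ (-4/7) γ(n t)`, `0 ≤ t ≤ 1`, and
`lawH n` is its law. Weak limits exist along a subsequence of every sequence `n → ∞` (first part of
`UniformDimension.result`). For every weak limit, almost surely, for all times `t > 0`
simultaneously, the set of the points of the open half-plane which the limit curve visits at least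
twice before the time `t` has Hausdorff dimension `3/4`, and the set of the times before `t` at
which it is at such a point has Hausdorff dimension `3/7`.

Upper bound: two visits of a small disc with an excursion in between imply four alternating arms,
whose probability is of order `(r/R) ^ (5/4)`. Lower bound: second moment method for the edges with
four arms which are glued to the two half-axes, at independent scales around the origin. The curve
does not return to `0` (`Displacement`), is not constant on any interval and multiplies all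
dimensions by `7/4` (`UniformDimension`), which gives the statement for all times simultaneously
and the double times.

Definitions: `dblT`, `dbtT` in `Pool.Agent.W92.DPH.AsmH`; `Conf`, `perc`, `opn`, `step`, `path`,
`place`, `gam`, `curve` in `Pool.Agent.H984R4.HN.HPDefs`, `lawH` in `Pool.Agent.H984R4.HN.FinalH`.

The version for rectangles is `MP_fe58d8_pr.DoublePoints`. Formalisation of the parts: helper52 (one
and two point bounds, independence of the scales), helper101 (the path does not come back),
helper174 (lower bound in the limit), helper347 (second moment, upper bound in the limit),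
helper462, helper571 (dual arms, arms of the cross), helper598 (lower bound for the cross),
helper801 (double visits), helper822 (four arms in an annulus).
-/

namespace Pool.Agent.Results.MP_6c8efb_pr.DoublePoints

open MeasureTheory Filter Topology Pool.Agent.W92.DP Pool.Agent.W92.DPH

theorem result (φ : ℕ → ℕ) (hφ : Tendsto φ atTop atTop)
    (μ : ProbabilityMeasure C(unitInterval, ℂ))
    (hμ : Tendsto (fun i => H984H.lawH (φ i)) atTop (𝓝 μ)) :
    ∀ᵐ f : C(unitInterval, ℂ) ∂(μ : Measure C(unitInterval, ℂ)), ∀ t : unitInterval, 0 < t →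
      dimH {z : ℂ | 0 < z.im ∧ z ∈ dblT f t} = 3 / 4 ∧
      dimH {s : unitInterval | 0 < (f s).im ∧ s ∈ dbtT f t} = 3 / 7 := by
  have hup : St_limUH := Pool.Agent.W347.DPHUp.limUH
  have hret : St_ret := Pool.Agent.W101.DPH.ret
  have hlow : St_limLH := Pool.Agent.W174.DP.limLH
  have hAa : St_Aa := Pool.Agent.W822.PV.A4a_sharp
  have hAd : St_Ad := Pool.Agent.W571.DPad.ad hAa
  have hgd : St_good := Pool.Agent.W347.DPGood.good
    (Pool.Agent.W52.DPOne.one Pool.Agent.W598.DP.plow) (Pool.Agent.W52.DPTwo.two hAa)
  have hdet : St_det := Pool.Agent.W801.DPdet.det Pool.Agent.W571.DParms.arms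
  have h1 : ∀ᵐ f : C(unitInterval, ℂ) ∂(μ : Measure C(unitInterval, ℂ)), ∀ k : ℕ,
      dimH (DPt (1 / ((k:ℝ) + 1)) f ∩ {z : ℂ | 0 < z.im}) ≤ 3/4 := by
    rw [ae_all_iff]
    intro k
    exact hup st_U hAa hAd φ hφ μ hμ _ (by positivity)
  have h2 : ∀ᵐ f : C(unitInterval, ℂ) ∂(μ : Measure C(unitInterval, ℂ)), ∀ j k : ℕ,
      ENNReal.ofReal (3/4 - 1 / ((k:ℝ) + 2)) ≤
      dimH {z : ℂ | 0 < z.im ∧ dist z 0 < 1 / ((j:ℝ) + 1) ∧ ∃ η : ℝ, 0 < η ∧ z ∈ DPt η f} := by
    rw [ae_all_iff]
    intro j
    rw [ae_all_iff]
    intro k
    have hk : (1:ℝ) / ((k:ℝ) + 2) ≤ 1/2 := by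
      apply div_le_div_of_nonneg_left (by norm_num) (by norm_num)
      have : (0:ℝ) ≤ k := Nat.cast_nonneg k
      linarith
    have hk2 : (0:ℝ) < 1 / ((k:ℝ) + 2) := by positivity
    exact hlow UniformDimension.inputs.2.1 hret hgd Pool.Agent.W52.DPInd.ind hdet φ hφ μ hμ
      (3/4 - 1 / ((k:ℝ) + 2)) (by linarith) (by linarith) _ (by positivity)
  filter_upwards [h1, h2, UniformDimension.result.2 φ hφ μ hμ,
    (Displacement.result.2.2.2.2.2) φ hφ μ hμ] with f p1 p2 p3 p4
  intro t ht
  exact asmH p1 p2 p3 p4.2.2.1 t ht

end Pool.Agent.Results.MP_6c8efb_pr.DoublePoints
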