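import Pool.Agent.W801.OL.All

/-!
Critical bond percolation on the square lattice with a dislocation (the lattice is rotated by 45
degrees): the exact law of an odd number `l` of interfaces (legs) which start at the dislocation, for
all odd `l`, and the exponents `(l² - 1) / 12`.

Each unit square contains exactly one of its two diagonals, with probability `1/2` each, independently
(fair coins); the diagonals of one parity class of points are the open bonds of a square lattice, the
other diagonals are its dual-open bonds.  The surface is made of two half-infinite cylinders, the lower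
one of circumference `p + M` and the upper one of circumference `r + M`; `M` consecutive boundary
edges of the lower one are glued with `M` consecutive boundary edges of the upper one, the other `p + r`
boundary edges form a slit.  If `p + r` is odd then primal and dual are exchanged on a turn around the
slit (lattice dislocation), and locally, away from the slit, this is the square lattice.
-/

set_option autoImplicit false

namespace Pool.Agent.Results.MP_6c8efb_pr.OddLegs

open MeasureTheory

/-- Fair coins: one for each unit square with lower left corner `(j, t)`, `j ∈ ℤ`, `t ∈ ℕ`. -/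
noncomputable def coins : Measure (ℤ × ℕ → Bool) :=
  Measure.infinitePi (fun _ => ProbabilityTheory.bernoulliMeasure true false
    ⟨1/2, by norm_num, by norm_num⟩)

/-- Independent coins for the lower and the upper half. -/
noncomputable def coins2 : Measure ((ℤ × ℕ → Bool) × (ℤ × ℕ → Bool)) := coins.prod coins

/-- The links of a half-infinite cylinder of circumference `N` on its universal cover `ℤ × ℕ` (the
second coordinate is the distance to the boundary; only the coins of the squares with `0 ≤ j < N` are
used): the square `[j, j+1] × [t, t+1]` contains the diagonal from `(j, t)` if the coin of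
`(j mod N, t)` shows `false` and the other diagonal if it shows `true`. -/
inductive Half (N : ℕ) (ω : ℤ × ℕ → Bool) : ℤ × ℕ → ℤ × ℕ → Prop
  | rise (j : ℤ) (t : ℕ) : ω (j % N, t) = false → Half N ω (j, t) (j + 1, t + 1)
  | fall (j : ℤ) (t : ℕ) : ω (j % N, t) = true → Half N ω (j + 1, t) (j, t + 1)

/-- The links of the whole surface, cut along the slits (`false` = lower half, `true` = upper half):
in every sheet `s` the boundary points `p, …, p + M` of the lower half are glued with the boundary
points `r, …, r + M` of the upper half. -/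
inductive Link (p r M : ℕ) (ω : (ℤ × ℕ → Bool) × (ℤ × ℕ → Bool)) :
    (ℤ × ℕ) × Bool → (ℤ × ℕ) × Bool → Prop
  | low (x y : ℤ × ℕ) : Half (p + M) ω.1 x y → Link p r M ω (x, false) (y, false)
  | upp (x y : ℤ × ℕ) : Half (r + M) ω.2 x y → Link p r M ω (x, true) (y, true)
  | glue (s : ℤ) (i : ℕ) : i ≤ M →
      Link p r M ω ((s * (p + M : ℕ) + p + i, 0), false) ((s * (r + M : ℕ) + r + i, 0), true)

/-- Connection by links. -/
def Conn (p r M : ℕ) (ω : (ℤ × ℕ → Bool) × (ℤ × ℕ → Bool)) : (ℤ × ℕ) × Bool → (ℤ × ℕ) × Bool → Prop :=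
  Relation.EqvGen (Link p r M ω)

/-- The `p + r` boundary points (sectors) around the slit of the sheet `s`: `0, …, p` on the lower side
and `r - 1, …, 1` on the upper side (the points `0` and `p` of the lower side are glued with the points
`0` and `r` of the upper side). -/
def sector (p r M : ℕ) (s : ℤ) (c : ℕ) : (ℤ × ℕ) × Bool :=
  if c ≤ p then ((s * (p + M : ℕ) + c, 0), false)
  else ((s * (r + M : ℕ) + ((p : ℤ) + r - c), 0), true)

/-- The leg event: the sectors of a slit are pairwise not connected, and each of them is connected to a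
sector of another sheet.  So the `p + r` interfaces which separate the consecutive sectors all go
around the cylinder or to its ends. -/
def Legs (p r M : ℕ) (ω : (ℤ × ℕ → Bool) × (ℤ × ℕ → Bool)) : Prop :=
  (∀ c d : ℕ, c < p + r → d < p + r → c ≠ d →
    ¬ Conn p r M ω (sector p r M 0 c) (sector p r M 0 d)) ∧
  (∀ c : ℕ, c < p + r → ∃ s : ℤ, s ≠ 0 ∧ ∃ d : ℕ, d < p + r ∧
    Conn p r M ω (sector p r M 0 c) (sector p r M s d))

/-- The modulus of Andrews' determinant `det (δ_{ij} + e^{iθ} binom(l + i + j, j))`, `0 ≤ i, j < N`. -/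
noncomputable def R (N l : ℕ) (θ : ℝ) : ℝ :=
  ‖(Matrix.of fun i j : Fin N => (if i = j then 1 else 0)
    + Complex.exp (θ * Complex.I) * ((l + i.val + j.val).choose j.val : ℂ)).det‖

/-- **The exact law of an odd number of legs at a dislocation.** For all `p, r, M` with `l = p + r` odd
and both circumferences at least `2`, the probability `P` of the leg event satisfies
`P² R(p+M, 0, π/3) R(r+M, 0, π/3) = √3 R(M, l, 0)²` (and the `R` are positive), and it is of order
`M ^ (-(l² - 1) / 12)` for fixed `p, r`. -/
theorem result :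
    (∀ p r M : ℕ, Odd (p + r) → 2 ≤ p + M → 2 ≤ r + M →
      0 < R (p + M) 0 (Real.pi / 3) ∧ 0 < R (r + M) 0 (Real.pi / 3) ∧
      coins2.real {ω | Legs p r M ω} = Real.sqrt (Real.sqrt 3 * R M (p + r) 0 ^ 2 /
        (R (p + M) 0 (Real.pi / 3) * R (r + M) 0 (Real.pi / 3)))) ∧
    (∀ p r : ℕ, Odd (p + r) → ∃ a b : ℝ, 0 < a ∧ 0 < b ∧ ∀ M : ℕ, 2 ≤ M →
      a * (M : ℝ) ^ (-((((p : ℝ) + r) ^ 2 - 1) / 12)) ≤ coins2.real {ω | Legs p r M ω} ∧
      coins2.real {ω | Legs p r M ω} ≤ b * (M : ℝ) ^ (-((((p : ℝ) + r) ^ 2 - 1) / 12))) := by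
  have hH : ∀ (N : ℕ) (ω : ℤ × ℕ → Bool) (x y : ℤ × ℕ),
      Half N ω x y ↔ Pool.Agent.W808.HB.HL N N ω x y := by
    intro N ω x y
    constructor
    · intro h
      cases h with
      | rise j t h => exact .rise j t h
      | fall j t h => exact .fall j t h
    · intro h
      cases h with
      | rise j t h => exact .rise j t h
      | fall j t h => exact .fall j t h
      | wire s i h => omega
  have hL : ∀ (p r M : ℕ) (ω : (ℤ × ℕ → Bool) × (ℤ × ℕ → Bool)),
      Link p r M ω = Pool.Agent.W801.OL.Lk2 p r M ω.1 ω.2 := by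
    intro p r M ω
    funext x y
    refine propext ⟨fun h => ?_, fun h => ?_⟩
    · cases h with
      | low x y h => exact .low x y ((hH _ _ _ _).1 h)
      | upp x y h => exact .upp x y ((hH _ _ _ _).1 h)
      | glue s i h => exact .glue s i h
    · cases h with
      | low x y h => exact .low x y ((hH _ _ _ _).2 h)
      | upp x y h => exact .upp x y ((hH _ _ _ _).2 h)
      | glue s i h => exact .glue s i h
  have hE : ∀ p r M : ℕ, {ω | Legs p r M ω} =
      {ω : (ℤ × ℕ → Bool) × (ℤ × ℕ → Bool) | Pool.Agent.W801.OL.LegEv2 p r M ω.1 ω.2} := by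
    intro p r M
    ext ω
    show Legs p r M ω ↔ Pool.Agent.W801.OL.LegEv2 p r M ω.1 ω.2
    unfold Legs Pool.Agent.W801.OL.LegEv2 Conn
    rw [hL]
    rfl
  have hRR : ∀ (N l : ℕ) (θ : ℝ), R N l θ = Pool.Agent.H160R2.ML.RR N l θ := fun _ _ _ => rfl
  have hpos : ∀ N : ℕ, 0 < R N 0 (Real.pi / 3) := fun N => by
    rw [hRR]
    exact (Pool.Agent.H160R2.ML.a_PH N 0 (Real.pi / 3) (by positivity)
      (by linarith [Real.pi_pos])).1
  obtain ⟨h1, h2⟩ := Pool.Agent.W801.OL.a_Y4
  refine ⟨fun p r M hl hp hr => ⟨hpos _, hpos _, ?_⟩, fun p r hl => ?_⟩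
  · have h := h1 p r M hl hp hr
    rw [← hE p r M] at h
    have e0 : (Pool.Agent.W808.HB.coinsH.prod Pool.Agent.W808.HB.coinsH) = coins2 := rfl
    rw [e0] at h
    have hm := mul_pos (hpos (p + M)) (hpos (r + M))
    rw [hRR (p + M), hRR (r + M), hRR M, ← h]
    rw [hRR (p + M), hRR (r + M)] at hm
    rw [mul_div_assoc, div_self hm.ne', mul_one, Real.sqrt_sq measureReal_nonneg]
  · obtain ⟨c, C, hc, hC, h⟩ := h2 p r hl
    refine ⟨c, C, hc, hC, fun M hM => ?_⟩
    have h' := h M hM
    rw [← hE p r M] at h'
    exact h'

end Pool.Agent.Results.MP_6c8efb_pr.OddLegs
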