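import Pool.Agent.W808.KS.All

/-!
Critical bond percolation on the square lattice (rotated by 45 degrees) at the tip of a slit: the exact
law of `m` interfaces (legs) which start side by side at the tip of a half-infinite slit of thickness
`m` in an infinite cylinder of circumference `N`, for all `m ≥ 2` and all `N = m + 2 M`.

Each unit square `[j, j+1] × [t, t+1]` contains exactly one of its two diagonals, with probability `1/2`
each, independently (fair coins).  The diagonals through the points `(j, t)` with `j + t` even are the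
open bonds of a square lattice, the other diagonals are its dual-open bonds.
-/

set_option autoImplicit false

namespace Pool.Agent.Results.MP_6c8efb_pr.SlitTipLegs

open MeasureTheory

/-- Fair coins: one for each unit square with lower left corner `(j, t) ∈ ℤ × ℤ`. -/
noncomputable def coins : Measure (ℤ × ℤ → Bool) :=
  Measure.infinitePi (fun _ => ProbabilityTheory.bernoulliMeasure true false
    ⟨1/2, by norm_num, by norm_num⟩)

/-- The links of the infinite cylinder of circumference `N`, cut at the heights `t < 0` by a slit of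
thickness `m`, on its universal cover `ℤ × ℤ` (only the coins of the squares with `0 ≤ j < N` are
used): the diagonal of the square with lower left corner `(j, t)` rises if the coin of `(j mod N, t)`
shows `false` and falls if it shows `true`; the squares with `t < 0` and `j mod N < m` are removed (the
slit).  On each of the two walls of the slit, the columns `m` and `0` (modulo `N`), the points of the
heights `0, -2, -4, …` are wired together. -/
inductive Link (N m : ℕ) (ω : ℤ × ℤ → Bool) : ℤ × ℤ → ℤ × ℤ → Prop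
  | rise (j t : ℤ) : (0 ≤ t ∨ (m : ℤ) ≤ j % N) → ω (j % N, t) = false →
      Link N m ω (j, t) (j + 1, t + 1)
  | fall (j t : ℤ) : (0 ≤ t ∨ (m : ℤ) ≤ j % N) → ω (j % N, t) = true →
      Link N m ω (j + 1, t) (j, t + 1)
  | wallR (s : ℤ) (i : ℕ) : Link N m ω (s * N + m, -(2 * i : ℤ)) (s * N + m, -(2 * i : ℤ) - 2)
  | wallL (s : ℤ) (i : ℕ) : Link N m ω (s * N, -(2 * i : ℤ)) (s * N, -(2 * i : ℤ) - 2)

/-- Connection by links on the universal cover. -/
def Conn (N m : ℕ) (ω : ℤ × ℤ → Bool) : ℤ × ℤ → ℤ × ℤ → Prop := Relation.EqvGen (Link N m ω)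

/-- The `m` leg event: the points `1, …, m - 1` of the tip of the slit are pairwise not connected, not
connected to the walls (the points `0` and `m`), and each of them is connected to another sheet of the
universal cover.  So the `m` interfaces which start between the points `0, 1, …, m` of the tip all go
around the cylinder. -/
def Legs (N m : ℕ) (ω : ℤ × ℤ → Bool) : Prop :=
  (∀ c d : ℕ, 1 ≤ c → c < m → d ≤ m → c ≠ d → ¬ Conn N m ω ((c : ℤ), 0) ((d : ℤ), 0)) ∧
  (∀ c : ℕ, 1 ≤ c → c < m → ∃ s : ℤ, s ≠ 0 ∧ ∃ d : ℕ, 1 ≤ d ∧ d < m ∧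
    Conn N m ω ((c : ℤ), 0) (s * N + d, 0))

/-- The numbers `C(m, M)`. For `m = 0, 1` they count the half-turn symmetric alternating sign matrices
of size `m + 2 M`. -/
noncomputable def C (m M : ℕ) : ℝ := ∏ i ∈ Finset.range M,
  (((m + 3 * i + 2).factorial : ℝ) * i.factorial * (m + i).factorial * (2 * m + 3 * i).factorial) /
    (((2 * i + 1).factorial : ℝ) * (m + 2 * i).factorial * (m + 2 * i + 1).factorial *
      (2 * m + 2 * i).factorial)

/-- The product `D(p, M)`. -/
noncomputable def D (p : ℝ) (M : ℕ) : ℝ := ∏ i ∈ Finset.range M,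
  ((2 * p + 3 * i) * (i + 1).factorial *
    ∏ s ∈ Finset.range (i + 1), ((2 * p + 1 + 4 * i + 2 * s) * (2 * p - 1 + 2 * i + s))) /
  ((2 * i + 2).factorial * ∏ s ∈ Finset.range (i + 2), (2 * p - 1 + 2 * i + 2 * s))

/-- **The exact law of `m` legs at the tip of a slit.** For all `m ≥ 2` and every circumference
`N = m + 2 M`, `M ≥ 1`, the probability of the `m` leg event is
`2 ^ M D(m/2 + 1, M) D((m + 5)/2, M - 1) / (C(m mod 2, M + ⌊m / 2⌋) D(3, M - 1))`; for fixed `m` it is
of order `M ^ (-m (m - 1) / 12)`, that is `M ^ (-j (j + 1) / 12)` for the `j = m - 1` alternating arms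
at the tip. -/
theorem result :
    (∀ m M : ℕ, 2 ≤ m → 1 ≤ M →
      coins.real {ω | Legs (m + 2 * M) m ω} =
        2 ^ M * D ((m : ℝ) / 2 + 1) M * D (((m : ℝ) + 5) / 2) (M - 1) /
          (C (m % 2) (M + m / 2) * D 3 (M - 1))) ∧
    (∀ m : ℕ, 2 ≤ m → ∃ a b : ℝ, 0 < a ∧ 0 < b ∧ ∀ M : ℕ, 1 ≤ M →
      a * (M : ℝ) ^ (-((m : ℝ) * (m - 1) / 12)) ≤ coins.real {ω | Legs (m + 2 * M) m ω} ∧
      coins.real {ω | Legs (m + 2 * M) m ω} ≤ b * (M : ℝ) ^ (-((m : ℝ) * (m - 1) / 12))) := by
  have hL : ∀ (N m : ℕ) (ω : ℤ × ℤ → Bool) (x y : ℤ × ℤ),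
      Link N m ω x y ↔ Pool.Agent.W808.KS.HS N m ω x y := by
    intro N m ω x y
    constructor
    · intro h
      cases h with
      | rise j t h0 h => exact .rise j t h0 h
      | fall j t h0 h => exact .fall j t h0 h
      | wallR s i => exact .wallL s i
      | wallL s i => exact .wallR s i
    · intro h
      cases h with
      | rise j t h0 h => exact .rise j t h0 h
      | fall j t h0 h => exact .fall j t h0 h
      | wallL s i => exact .wallR s i
      | wallR s i => exact .wallL s i
  have hLeg : ∀ (N m : ℕ) (ω : ℤ × ℤ → Bool),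
      Legs N m ω ↔ Pool.Agent.W808.KS.LegS N m ω := by
    intro N m ω
    have h : Link N m ω = Pool.Agent.W808.KS.HS N m ω := by
      funext x y
      exact propext (hL N m ω x y)
    unfold Legs Pool.Agent.W808.KS.LegS Pool.Agent.W808.HB.Sec Conn
    rw [h]
  have hlaw : ∀ m M : ℕ, 2 ≤ m → 1 ≤ M →
      coins.real {ω | Legs (m + 2 * M) m ω} = Pool.Agent.W808.KS.Psl m M := by
    intro m M hm hM
    have e : {ω | Legs (m + 2 * M) m ω} = {ω | Pool.Agent.W808.KS.LegS (m + 2 * M) m ω} := by
      ext ω
      exact hLeg _ _ ω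
    rw [e]
    exact Pool.Agent.W808.KS.a_LAW m M hm hM
  refine ⟨fun m M hm hM => hlaw m M hm hM, fun m hm => ?_⟩
  obtain ⟨a, b, ha, hb, h⟩ := Pool.Agent.W808.KS.t_ASs m hm
  refine ⟨a, b, ha, hb, fun M hM => ?_⟩
  rw [hlaw m M hm hM]
  exact h M hM

end Pool.Agent.Results.MP_6c8efb_pr.SlitTipLegs
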